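import Mathlib
import Pool.Agent.Lib.MP_d87fde_al.Defs
import Pool.Agent.Lib.MP_d87fde_al.Final

/-!
# A non-coamenable compact matrix quantum group all of whose `Γ_Q` are amenable

This is the negated form of question Q1 of `MP_d87fde_al`. All the definitions used in the
statement are in `Pool/Agent/Lib/MP_d87fde_al/Defs.lean`.

The example is the dual of the group `Γ = A₅ * A₅`, twisted by a unitary 2-cocycle
`J = (1 ⊗ 1 + x ⊗ 1 + 1 ⊗ y - x ⊗ y) / 2` of a Klein four-group `{1, x, y, x y}` in the first copy
of `A₅`: the `*`-algebra `Pol(G)` is the group algebra of `Γ` and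
`Δ(g) = J (g ⊗ g) J` for `g ∈ Γ`. Its Haar state is the canonical trace of the group algebra, so `G`
is not coamenable because `Γ` is not amenable. On the other hand every Hopf quotient of `Pol(G)`
which is a group algebra kills the first copy of `A₅` because `A₅` is simple, and so every `Γ_Q` is
finite.
-/

namespace Pool.Agent.Results.MP_d87fde_al.AmenableTori

open Pool.Agent.MP_d87fde_al

theorem result : ∃ (N : ℕ) (G : CompactMatrixQuantumGroup N),
    (∃ h, IsHaarState G.str.comul h) ∧ ¬ IsCoamenable G.str.comul ∧
      ∀ Q ∈ Matrix.unitaryGroup (Fin N) ℂ, IsAmenable (Gam G.u Q) :=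
  main

end Pool.Agent.Results.MP_d87fde_al.AmenableTori
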